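import Pool.Agent.Helper18.PB.Defs

/-!
# F4: flatness at the good points (MP_b9cb57_an)
-/

set_option autoImplicit false
set_option linter.unusedVariables false

open MeasureTheory Measure Filter Topology

namespace Pool.Agent.Helper33.PB

open Pool.Agent.Helper18.PB

/-- sign -/
noncomputable def sg (t : ℝ) : ℝ := if 0 ≤ t then 1 else -1

theorem sg_mul_self (t : ℝ) : sg t * t = |t| := by
  unfold sg
  split_ifs with h
  · rw [one_mul, abs_of_nonneg h]
  · rw [abs_of_neg (not_le.1 h)]; ring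

theorem abs_sg (t : ℝ) : |sg t| = 1 := by
  unfold sg
  split_ifs with h
  · exact abs_one
  · rw [abs_neg, abs_one]

theorem abs_add_eq {u v : ℝ} (h : |v| ≤ |u|) : |u + v| = sg u * (u + v) := by
  have hv := abs_le.1 h
  unfold sg
  split_ifs with hu
  · rw [abs_of_nonneg hu] at hv
    rw [one_mul, abs_of_nonneg (by linarith [hv.1])]
  · rw [abs_of_neg (not_le.1 hu)] at hv
    rw [abs_of_nonpos (by linarith [hv.2])]
    ring

theorem abs_add_bd {u v : ℝ} (h : |u| < |v|) : |u + v| ≤ sg u * (u + v) + 4 * |v| := by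
  have h1 := abs_add_le u v
  have h2 : |sg u * (u + v)| = |u + v| := by rw [abs_mul, abs_sg, one_mul]
  have h3 := neg_abs_le (sg u * (u + v))
  rw [h2] at h3
  linarith

theorem fin_part {n M : ℕ} (b : Fin M → EuclideanSpace ℝ (Fin n)) (x : EuclideanSpace ℝ (Fin n))
    (hb : ∀ i, b i ≠ 0 → (inner ℝ (b i) x : ℝ) ≠ 0)
    (hb2 : ∀ i j, |(inner ℝ (b i) x : ℝ)| = |(inner ℝ (b j) x : ℝ)| → b i = b j ∨ b i = -b j) :
    ∃ v : EuclideanSpace ℝ (Fin n),
      (∀ h, |(inner ℝ v h : ℝ)| ≤ ‖(fun i : Fin M => (inner ℝ (b i) h : ℝ))‖) ∧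
      (inner ℝ v x : ℝ) = ‖(fun i : Fin M => (inner ℝ (b i) x : ℝ))‖ ∧
      ∀ᶠ h in 𝓝 (0 : EuclideanSpace ℝ (Fin n)),
        ‖(fun i : Fin M => (inner ℝ (b i) (x + h) : ℝ))‖ ≤
          ‖(fun i : Fin M => (inner ℝ (b i) x : ℝ))‖ + (inner ℝ v h : ℝ) := by
  rcases isEmpty_or_nonempty (Fin M) with hM | hM
  · have h0 : ∀ h : EuclideanSpace ℝ (Fin n), ‖(fun i : Fin M => (inner ℝ (b i) h : ℝ))‖ = 0 := by
      intro h
      have : (fun i : Fin M => (inner ℝ (b i) h : ℝ)) = 0 := Subsingleton.elim _ _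
      rw [this, norm_zero]
    refine ⟨0, fun h => ?_, ?_, Eventually.of_forall fun h => ?_⟩
    · rw [h0, inner_zero_left, abs_zero]
    · rw [h0, inner_zero_left]
    · rw [h0, h0, inner_zero_left, add_zero]
  · obtain ⟨i0, hi0⟩ := Finite.exists_max (fun i => |(inner ℝ (b i) x : ℝ)|)
    have hP : ‖(fun i : Fin M => (inner ℝ (b i) x : ℝ))‖ = |(inner ℝ (b i0) x : ℝ)| :=
      le_antisymm ((pi_norm_le_iff_of_nonneg (abs_nonneg _)).2 (fun i => hi0 i))
        (norm_le_pi_norm (fun i : Fin M => (inner ℝ (b i) x : ℝ)) i0)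
    refine ⟨sg (inner ℝ (b i0) x) • b i0, fun h => ?_, ?_, ?_⟩
    · rw [real_inner_smul_left, abs_mul, abs_sg, one_mul]
      exact norm_le_pi_norm (fun i : Fin M => (inner ℝ (b i) h : ℝ)) i0
    · rw [real_inner_smul_left, sg_mul_self, hP]
    · have hall : ∀ i : Fin M, ∀ᶠ h in 𝓝 (0 : EuclideanSpace ℝ (Fin n)),
          |(inner ℝ (b i) (x + h) : ℝ)| ≤
          |(inner ℝ (b i0) x : ℝ)| + (inner ℝ (sg (inner ℝ (b i0) x) • b i0) h : ℝ) := by
        intro i
        rcases eq_or_lt_of_le (hi0 i) with he | hlt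
        · have hone : ∀ h : EuclideanSpace ℝ (Fin n),
              |(inner ℝ (b i) (x + h) : ℝ)| = |(inner ℝ (b i0) (x + h) : ℝ)| := by
            intro h
            rcases hb2 i i0 he with h1 | h1
            · rw [h1]
            · rw [h1, inner_neg_left, abs_neg]
          by_cases hz : b i0 = 0
          · refine Eventually.of_forall fun h => ?_
            rw [hone, hz]
            simp
          · have h3 := hb i0 hz
            have h4 : ∀ᶠ h in 𝓝 (0 : EuclideanSpace ℝ (Fin n)),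
                |(inner ℝ (b i0) h : ℝ)| < |(inner ℝ (b i0) x : ℝ)| := by
              have hcont : Continuous (fun h : EuclideanSpace ℝ (Fin n) =>
                |(inner ℝ (b i0) h : ℝ)|) := by fun_prop
              have h5 := hcont.tendsto 0
              apply h5.eventually_lt_const
              rw [inner_zero_right, abs_zero]
              exact abs_pos.2 h3
            filter_upwards [h4] with h hh
            rw [hone, inner_add_right, abs_add_eq hh.le, real_inner_smul_left, mul_add,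
              sg_mul_self]
        · have hcont1 : Continuous (fun h : EuclideanSpace ℝ (Fin n) =>
              |(inner ℝ (b i) (x + h) : ℝ)|) := by fun_prop
          have hcont2 : Continuous (fun h : EuclideanSpace ℝ (Fin n) =>
              |(inner ℝ (b i0) x : ℝ)| + (inner ℝ (sg (inner ℝ (b i0) x) • b i0) h : ℝ)) := by
            fun_prop
          have h6 := (hcont1.tendsto 0).eventually_lt (hcont2.tendsto 0) (by simpa using hlt)
          filter_upwards [h6] with h hh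
          exact hh.le
      have hall2 := eventually_all.2 hall
      filter_upwards [hall2] with h hh
      rw [hP]
      refine (pi_norm_le_iff_of_nonneg ?_).2 (fun i => hh i)
      exact (abs_nonneg _).trans (hh i0)

theorem ser_part {n : ℕ} (a : ℕ → EuclideanSpace ℝ (Fin n)) (c δ : ℕ → ℝ)
    (x : EuclideanSpace ℝ (Fin n)) (hx : x ≠ 0) (hδ : ∀ k, 0 < δ k ∧ δ k ≤ 1)
    (hc : ∀ k, 0 < c k ∧ c k ≤ (1 / 2) ^ k * (δ k / (1 + ‖a k‖)) ^ (k + 1))
    (h1 : ∀ k, a k ≠ 0 → (inner ℝ (a k) x : ℝ) ≠ 0)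
    (h2 : ∃ k₀, ∀ k ≥ k₀, a k ≠ 0 → δ k * ‖x‖ ≤ |(inner ℝ (a k) x : ℝ)|) :
    ∃ v : EuclideanSpace ℝ (Fin n),
      (∀ h, |(inner ℝ v h : ℝ)| ≤ ∑' k, c k * |(inner ℝ (a k) h : ℝ)|) ∧
      (inner ℝ v x : ℝ) = ∑' k, c k * |(inner ℝ (a k) x : ℝ)| ∧
      ∀ S : ℕ, ∃ D : ℝ, 0 ≤ D ∧ ∀ᶠ h in 𝓝 (0 : EuclideanSpace ℝ (Fin n)),
        ∑' k, c k * |(inner ℝ (a k) (x + h) : ℝ)| ≤
          ∑' k, c k * |(inner ℝ (a k) x : ℝ)| + (inner ℝ v h : ℝ) + D * ‖h‖ ^ S := by
  have hq0 : ∀ k, 0 ≤ δ k / (1 + ‖a k‖) := fun k =>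
    div_nonneg (hδ k).1.le (by positivity)
  have hq1 : ∀ k, δ k / (1 + ‖a k‖) ≤ 1 := fun k => by
    rw [div_le_one (by positivity)]
    have := norm_nonneg (a k)
    linarith [(hδ k).2]
  have hqa : ∀ k, δ k / (1 + ‖a k‖) * ‖a k‖ ≤ 1 := fun k => by
    rw [div_mul_eq_mul_div, div_le_one (by positivity)]
    have := norm_nonneg (a k)
    nlinarith [(hδ k).2]
  have hsum : Summable (fun k => c k * ‖a k‖) := by
    refine Summable.of_nonneg_of_le (fun k => mul_nonneg (hc k).1.le (norm_nonneg _))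
      (fun k => ?_) summable_geometric_two
    calc c k * ‖a k‖ ≤ ((1 / 2) ^ k * (δ k / (1 + ‖a k‖)) ^ (k + 1)) * ‖a k‖ :=
          mul_le_mul_of_nonneg_right (hc k).2 (norm_nonneg _)
      _ = (1 / 2) ^ k * ((δ k / (1 + ‖a k‖)) ^ k * (δ k / (1 + ‖a k‖) * ‖a k‖)) := by ring
      _ ≤ (1 / 2) ^ k * (1 * 1) := by
          apply mul_le_mul_of_nonneg_left _ (by positivity)
          apply mul_le_mul (pow_le_one₀ (hq0 k) (hq1 k)) (hqa k)
            (mul_nonneg (hq0 k) (norm_nonneg _)) zero_le_one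
      _ = (1 / 2) ^ k := by ring
  have hs : ∀ y : EuclideanSpace ℝ (Fin n), Summable (fun k => c k * |(inner ℝ (a k) y : ℝ)|) := by
    intro y
    refine Summable.of_nonneg_of_le (fun k => mul_nonneg (hc k).1.le (abs_nonneg _))
      (fun k => ?_) (hsum.mul_right ‖y‖)
    rw [mul_assoc]
    exact mul_le_mul_of_nonneg_left (abs_real_inner_le_norm _ _) (hc k).1.le
  have hv : Summable (fun k => (c k * sg (inner ℝ (a k) x)) • a k) := by
    apply Summable.of_norm
    refine hsum.congr (fun k => ?_)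
    rw [norm_smul, Real.norm_eq_abs, abs_mul, abs_sg, mul_one, abs_of_pos (hc k).1]
  have hin : ∀ h : EuclideanSpace ℝ (Fin n),
      (inner ℝ (∑' k, (c k * sg (inner ℝ (a k) x)) • a k) h : ℝ) =
        ∑' k, c k * (sg (inner ℝ (a k) x) * (inner ℝ (a k) h : ℝ)) := by
    intro h
    have h3 := (innerSL ℝ h).map_tsum hv
    simp only [innerSL_apply_apply, real_inner_smul_right] at h3
    rw [real_inner_comm, h3]
    apply tsum_congr
    intro k
    rw [real_inner_comm (a k) h]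
    ring
  have hs2 : ∀ y : EuclideanSpace ℝ (Fin n),
      Summable (fun k => c k * (sg (inner ℝ (a k) x) * (inner ℝ (a k) y : ℝ))) := by
    intro y
    apply Summable.of_norm
    refine (hs y).congr (fun k => ?_)
    rw [Real.norm_eq_abs, abs_mul, abs_mul, abs_sg, one_mul, abs_of_pos (hc k).1]
  have hvx : (inner ℝ (∑' k, (c k * sg (inner ℝ (a k) x)) • a k) x : ℝ) =
      ∑' k, c k * |(inner ℝ (a k) x : ℝ)| := by
    rw [hin]
    apply tsum_congr
    intro k
    rw [sg_mul_self]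
  refine ⟨∑' k, (c k * sg (inner ℝ (a k) x)) • a k, fun h => ?_, hvx, fun S => ?_⟩
  · rw [hin]
    have h4 : ∀ k, ‖c k * (sg (inner ℝ (a k) x) * (inner ℝ (a k) h : ℝ))‖ =
        c k * |(inner ℝ (a k) h : ℝ)| := fun k => by
      rw [Real.norm_eq_abs, abs_mul, abs_mul, abs_sg, one_mul, abs_of_pos (hc k).1]
    have h5 := norm_tsum_le_tsum_norm
      (f := fun k => c k * (sg (inner ℝ (a k) x) * (inner ℝ (a k) h : ℝ)))
      (by simp only [h4]; exact hs h)
    simp only [h4] at h5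
    exact h5
  · obtain ⟨k0, hk0⟩ := h2
    have hxp : 0 < ‖x‖ := norm_pos_iff.2 hx
    refine ⟨8 / ‖x‖ ^ S, by positivity, ?_⟩
    have hfin : ∀ k : Fin (max k0 S), ∀ᶠ h in 𝓝 (0 : EuclideanSpace ℝ (Fin n)),
        a k ≠ 0 → |(inner ℝ (a k) h : ℝ)| ≤ |(inner ℝ (a k) x : ℝ)| := by
      intro k
      by_cases hz : a k = 0
      · exact Eventually.of_forall fun h h' => absurd hz h'
      · have hcont : Continuous (fun h : EuclideanSpace ℝ (Fin n) =>
          |(inner ℝ (a k) h : ℝ)|) := by fun_prop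
        have h6 : ∀ᶠ h in 𝓝 (0 : EuclideanSpace ℝ (Fin n)),
            |(inner ℝ (a k) h : ℝ)| < |(inner ℝ (a k) x : ℝ)| := by
          apply (hcont.tendsto 0).eventually_lt_const
          rw [inner_zero_right, abs_zero]
          exact abs_pos.2 (h1 k hz)
        filter_upwards [h6] with h hh _
        exact hh.le
    have hball : ∀ᶠ h in 𝓝 (0 : EuclideanSpace ℝ (Fin n)), ‖h‖ < 1 := by
      have : Continuous (fun h : EuclideanSpace ℝ (Fin n) => ‖h‖) := continuous_norm
      apply (this.tendsto 0).eventually_lt_const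
      rw [norm_zero]
      exact zero_lt_one
    filter_upwards [eventually_all.2 hfin, hball] with h hh hn
    rw [← hvx, ← inner_add_right, hin]
    have hterm : ∀ k, c k * |(inner ℝ (a k) (x + h) : ℝ)| ≤
        c k * (sg (inner ℝ (a k) x) * (inner ℝ (a k) (x + h) : ℝ)) +
          (1 / 2) ^ k * (4 * ‖h‖ * (‖h‖ / ‖x‖) ^ S) := by
      intro k
      have hB : 0 ≤ (1 / 2 : ℝ) ^ k * (4 * ‖h‖ * (‖h‖ / ‖x‖) ^ S) := by positivity
      by_cases hz : a k = 0
      · rw [hz]
        simp only [inner_zero_left, abs_zero, mul_zero, zero_add]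
        exact hB
      by_cases hle : |(inner ℝ (a k) h : ℝ)| ≤ |(inner ℝ (a k) x : ℝ)|
      · rw [inner_add_right, abs_add_eq hle]
        linarith
      · push Not at hle
        have hk : max k0 S ≤ k := by
          by_contra hcon
          push Not at hcon
          exact absurd (hh ⟨k, hcon⟩ hz) (not_le.2 hle)
        have hk1 : k0 ≤ k := (le_max_left _ _).trans hk
        have hk2 : S ≤ k := (le_max_right _ _).trans hk
        have h7 := hk0 k hk1 hz
        have h8 : δ k * ‖x‖ ≤ ‖a k‖ * ‖h‖ :=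
          h7.trans (hle.le.trans (abs_real_inner_le_norm _ _))
        have h9 : δ k / (1 + ‖a k‖) ≤ ‖h‖ / ‖x‖ := by
          rw [div_le_div_iff₀ (by positivity) hxp]
          have := norm_nonneg h
          nlinarith
        have h10 : (δ k / (1 + ‖a k‖)) ^ k ≤ (‖h‖ / ‖x‖) ^ S :=
          (pow_le_pow_of_le_one (hq0 k) (hq1 k) hk2).trans (pow_le_pow_left₀ (hq0 k) h9 S)
        have h11 := abs_add_bd hle
        have h12 : c k * (4 * |(inner ℝ (a k) h : ℝ)|) ≤
            (1 / 2) ^ k * (4 * ‖h‖ * (‖h‖ / ‖x‖) ^ S) := by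
          calc c k * (4 * |(inner ℝ (a k) h : ℝ)|)
              ≤ ((1 / 2) ^ k * (δ k / (1 + ‖a k‖)) ^ (k + 1)) * (4 * (‖a k‖ * ‖h‖)) := by
                apply mul_le_mul (hc k).2 _ (by positivity)
                  (mul_nonneg (by positivity) (pow_nonneg (hq0 k) _))
                have := abs_real_inner_le_norm (a k) h
                linarith
            _ = (1 / 2) ^ k * (4 * ‖h‖ * ((δ k / (1 + ‖a k‖)) ^ k *
                  (δ k / (1 + ‖a k‖) * ‖a k‖))) := by ring
            _ ≤ (1 / 2) ^ k * (4 * ‖h‖ * ((‖h‖ / ‖x‖) ^ S * 1)) := by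
                apply mul_le_mul_of_nonneg_left _ (by positivity)
                apply mul_le_mul_of_nonneg_left _ (by positivity)
                apply mul_le_mul h10 (hqa k) (mul_nonneg (hq0 k) (norm_nonneg _)) (by positivity)
            _ = (1 / 2) ^ k * (4 * ‖h‖ * (‖h‖ / ‖x‖) ^ S) := by ring
        rw [inner_add_right]
        have h13 := mul_le_mul_of_nonneg_left h11 (hc k).1.le
        rw [mul_add (c k)] at h13
        linarith
    have hg : Summable (fun k : ℕ => (1 / 2 : ℝ) ^ k * (4 * ‖h‖ * (‖h‖ / ‖x‖) ^ S)) :=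
      summable_geometric_two.mul_right _
    have h14 := (hs (x + h)).tsum_le_tsum hterm ((hs2 (x + h)).add hg)
    rw [(hs2 (x + h)).tsum_add hg, tsum_mul_right, tsum_geometric_two] at h14
    refine h14.trans (add_le_add_right ?_ _)
    have h15 : 2 * (4 * ‖h‖ * (‖h‖ / ‖x‖) ^ S) = ‖h‖ * (8 / ‖x‖ ^ S * ‖h‖ ^ S) := by
      rw [div_pow]; ring
    rw [h15]
    have h16 : 0 ≤ 8 / ‖x‖ ^ S * ‖h‖ ^ S := by positivity
    nlinarith

theorem f4 : GFlat := by
  intro n M a c δ b hδ hc Y _ _ L hL x hx1 hgood s hs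
  obtain ⟨g1, g2, g3, g4⟩ := hgood
  have hx : x ≠ 0 := by
    rintro rfl
    rw [map_zero, norm_zero] at hx1
    exact zero_ne_one hx1
  obtain ⟨u, hu1, hu2, hu3⟩ := fin_part b x g3 g4
  obtain ⟨v, hv1, hv2, hv3⟩ := ser_part a c δ x hx hδ hc g1 g2
  obtain ⟨S, hS⟩ := exists_nat_ge s
  obtain ⟨D, hD0, hD⟩ := hv3 S
  have hnx : ‖(fun i : Fin M => (inner ℝ (b i) x : ℝ))‖ + ∑' k, c k * |(inner ℝ (a k) x : ℝ)| = 1 := by
    rw [← hx1, hL]; rfl
  -- the functional
  let wl : Y →ₗ[ℝ] ℝ := (innerSL ℝ (u + v)).toLinearMap ∘ₗ L.symm.toLinearMap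
  have hwl : ∀ y, wl y = (inner ℝ (u + v) (L.symm y) : ℝ) := fun y => rfl
  have hbd : ∀ y, ‖wl y‖ ≤ 1 * ‖y‖ := by
    intro y
    have h1 : ‖y‖ = nrm a c b (L.symm y) := by rw [← hL, L.apply_symm_apply]
    rw [one_mul, h1, hwl, inner_add_left, Real.norm_eq_abs]
    exact (abs_add_le _ _).trans (add_le_add (hu1 _) (hv1 _))
  let w : Y →L[ℝ] ℝ := wl.mkContinuous 1 hbd
  have hw : ∀ y, w y = (inner ℝ (u + v) (L.symm y) : ℝ) := fun y => rfl
  -- the inverse is bounded
  have hfd : FiniteDimensional ℝ Y := LinearEquiv.finiteDimensional L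
  let Lc : Y →L[ℝ] EuclideanSpace ℝ (Fin n) := LinearMap.toContinuousLinearMap L.symm.toLinearMap
  obtain ⟨K, hK0, hK⟩ : ∃ K : ℝ, 0 < K ∧ ∀ h : EuclideanSpace ℝ (Fin n), ‖h‖ ≤ K * ‖L h‖ := by
    refine ⟨‖Lc‖ + 1, by positivity, fun h => ?_⟩
    have h1 := Lc.le_opNorm (L h)
    have h2 : Lc (L h) = h := L.symm_apply_apply h
    rw [h2] at h1
    have := norm_nonneg (L h)
    nlinarith
  -- local estimate
  have hloc := hu3.and hD
  obtain ⟨r, hr0, hr⟩ := Metric.eventually_nhds_iff.1 hloc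
  set r0 := min (r / 2) 1 with hr0d
  have hr00 : 0 < r0 := lt_min (by linarith) one_pos
  refine ⟨w, ?_, ?_, D * K ^ s + (K / r0) ^ (s - 1), ?_⟩
  · exact wl.mkContinuous_norm_le zero_le_one hbd
  · rw [hw, L.symm_apply_apply, inner_add_left, hu2, hv2, hnx]
  · intro y hy
    obtain ⟨h, rfl⟩ := L.surjective y
    rw [hw, L.symm_apply_apply, inner_add_left] at hy
    have hyn := norm_nonneg (L h)
    have hs0 : 0 ≤ s := zero_le_one.trans hs
    have hpow : 0 ≤ ‖L h‖ ^ s := Real.rpow_nonneg hyn s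
    have hKr : 0 ≤ (K / r0) ^ (s - 1) := Real.rpow_nonneg (by positivity) _
    have hKs : 0 ≤ K ^ s := Real.rpow_nonneg hK0.le _
    by_cases hsm : ‖h‖ ≤ r0
    · have hhr : dist h 0 < r := by
        rw [dist_zero_right]
        have := min_le_left (r / 2) 1
        linarith
      obtain ⟨e1, e2⟩ := hr hhr
      have h3 : ‖L x + L h‖ ≤ 1 + D * ‖h‖ ^ S := by
        rw [← map_add, hL]
        unfold nrm
        linarith
      have h1r : ‖h‖ ≤ 1 := hsm.trans (min_le_right _ _)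
      have h4 : ‖h‖ ^ S ≤ K ^ s * ‖L h‖ ^ s := by
        rw [← Real.mul_rpow hK0.le hyn]
        calc ‖h‖ ^ S = ‖h‖ ^ (S : ℝ) := (Real.rpow_natCast _ _).symm
          _ ≤ ‖h‖ ^ s := by
              rcases (norm_nonneg h).eq_or_lt with h0 | h0
              · rw [← h0, Real.zero_rpow (by linarith), Real.zero_rpow (by linarith)]
              · exact Real.rpow_le_rpow_of_exponent_ge h0 h1r hS
          _ ≤ (K * ‖L h‖) ^ s := Real.rpow_le_rpow (norm_nonneg _) (hK h) hs0
      have h5 := mul_le_mul_of_nonneg_left h4 hD0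
      have h6 := mul_nonneg hKr hpow
      linarith
    · push Not at hsm
      have h3 : ‖L x + L h‖ ≤ 1 + ‖L h‖ := by
        have := norm_add_le (L x) (L h)
        rwa [hx1] at this
      have h4 : r0 < K * ‖L h‖ := hsm.trans_le (hK h)
      have hpos : 0 < ‖L h‖ := by
        by_contra hcon
        have h0 : ‖L h‖ = 0 := le_antisymm (not_lt.1 hcon) hyn
        rw [h0, mul_zero] at h4
        linarith
      have h5 : 1 ≤ (K / r0 * ‖L h‖) ^ (s - 1) := by
        apply Real.one_le_rpow _ (by linarith)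
        rw [div_mul_eq_mul_div, le_div_iff₀ hr00, one_mul]
        exact h4.le
      rw [Real.mul_rpow (by positivity) hyn] at h5
      have h6 : ‖L h‖ ^ s = ‖L h‖ ^ (s - 1) * ‖L h‖ := by
        rw [Real.rpow_sub_one hpos.ne' s]
        field_simp
      have h7 := mul_le_mul_of_nonneg_right h5 hyn
      have h8 := mul_nonneg (mul_nonneg hD0 hKs) hpow
      have h9 : (K / r0) ^ (s - 1) * ‖L h‖ ^ (s - 1) * ‖L h‖ = (K / r0) ^ (s - 1) * ‖L h‖ ^ s := by
        rw [h6]; ring
      linarith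

end Pool.Agent.Helper33.PB
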