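import Pool.Agent.Helper76.PB.GoalsF
import Pool.Agent.Helper14.PP.DNIC
import Pool.Agent.Helper33.REC.KBRK

/-!
# Packet PB-XLIX: the number of local classes above `p`
-/

set_option autoImplicit false

namespace Pool.Agent.Helper33.PB

open NumberField Module IsDedekindDomain Polynomial Pool.Agent.Helper51.RP Pool.Agent.Helper42.PP
  Pool.Agent.Helper76.PB

section roots

variable {F : Type} [Field F] {p : ℕ}

/-- The product of the differences. -/
theorem prod_sub_root (hp : 0 < p) {ε : F} (hε : IsPrimitiveRoot ε p) (u : F) :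
    ∏ ζ ∈ nthRootsFinset p (1 : F), (u - ζ) = u ^ p - 1 := by
  have h1 := congrArg (Polynomial.eval u) (X_pow_sub_one_eq_prod hp hε)
  rw [Polynomial.eval_prod] at h1
  simpa using h1.symm

theorem one_mem_roots (hp : 0 < p) : (1 : F) ∈ nthRootsFinset p (1 : F) := by
  rw [mem_nthRootsFinset hp]
  exact one_pow _

open Classical in
/-- The product of the `1 - ζ`. -/
theorem prod_one_sub_root (hp : 0 < p) {ε : F} (hε : IsPrimitiveRoot ε p) :
    ∏ ζ ∈ (nthRootsFinset p (1 : F)).erase 1, (1 - ζ) = (p : F) := by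
  have h1 := X_pow_sub_one_eq_prod hp hε
  rw [← Finset.mul_prod_erase _ _ (one_mem_roots hp)] at h1
  have h2 : (X ^ p - 1 : F[X]) = (X - C 1) * ∑ i ∈ Finset.range p, X ^ i := by
    rw [mul_comm, C_1, geom_sum_mul]
  rw [h2] at h1
  have h3 := mul_left_cancel₀ (X_sub_C_ne_zero (1 : F)) h1
  have h4 := congrArg (Polynomial.eval (1 : F)) h3
  rw [Polynomial.eval_prod, Polynomial.eval_finsetSum] at h4
  simp only [eval_pow, eval_X, one_pow, Finset.sum_const, Finset.card_range, eval_sub,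
    eval_C, nsmul_eq_mul, mul_one] at h4
  exact h4.symm

end roots

section val

variable {F : Type} [Field F] [NumberField F] {p : ℕ}

/-- An approximate root is close to a root. -/
theorem root_close (hp : 0 < p) {ε : F} (hε : IsPrimitiveRoot ε p)
    (v : HeightOneSpectrum (𝓞 F)) (x : F)
    (hx : v.valuation F (x ^ p - 1) ≤ v.valuation F (p : F) ^ 3) :
    ∃ ζ ∈ nthRootsFinset p (1 : F), v.valuation F (x - ζ) ≤ v.valuation F (p : F) ^ 2 := by
  classical
  obtain ⟨ζ₀, hζ₀, hmin⟩ := Finset.exists_min_image (nthRootsFinset p (1 : F))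
    (fun ζ => v.valuation F (x - ζ)) ⟨1, one_mem_roots hp⟩
  refine ⟨ζ₀, hζ₀, ?_⟩
  have hζp : ζ₀ ^ p = 1 := (mem_nthRootsFinset hp (1 : F)).mp hζ₀
  have hne : ζ₀ ≠ 0 := by
    intro h
    rw [h, zero_pow hp.ne'] at hζp
    exact zero_ne_one hζp
  have hvζ : v.valuation F ζ₀ = 1 := by
    have h1 : v.valuation F ζ₀ ^ p = 1 := by rw [← map_pow, hζp, map_one]
    exact (pow_eq_one_iff_of_nonneg zero_le hp.ne').mp h1
  have hp0 : v.valuation F (p : F) ≠ 0 := by
    rw [Ne, map_eq_zero]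
    exact_mod_cast hp.ne'
  have h1 : ∀ ζ ∈ (nthRootsFinset p (1 : F)).erase 1,
      v.valuation F (1 - ζ) ≤ v.valuation F (x / ζ₀ - ζ) := by
    intro ζ hζ
    have hζ1 := (Finset.mem_erase.mp hζ).2
    have hζ2 : ζ * ζ₀ ∈ nthRootsFinset p (1 : F) := by
      rw [mem_nthRootsFinset hp] at hζ1 ⊢
      rw [mul_pow, hζ1, hζp, one_mul]
    have h2 := hmin _ hζ2
    have h3 : v.valuation F (x / ζ₀ - ζ) = v.valuation F (x - ζ * ζ₀) := by
      have : x / ζ₀ - ζ = (x - ζ * ζ₀) / ζ₀ := by field_simp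
      rw [this, map_div₀, hvζ, div_one]
    have h4 : v.valuation F (1 - ζ) = v.valuation F ((x - ζ * ζ₀) - (x - ζ₀)) := by
      have : (x - ζ * ζ₀) - (x - ζ₀) = (1 - ζ) * ζ₀ := by ring
      rw [this, map_mul, hvζ, mul_one]
    rw [h3, h4]
    exact (Valuation.map_sub _ _ _).trans (max_le le_rfl h2)
  have h2 : v.valuation F (p : F) ≤
      ∏ ζ ∈ (nthRootsFinset p (1 : F)).erase 1, v.valuation F (x / ζ₀ - ζ) := by
    rw [← prod_one_sub_root hp hε, map_prod]
    exact Finset.prod_le_prod (fun _ _ => zero_le) h1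
  have h3 : v.valuation F (x ^ p - 1) = v.valuation F (x - ζ₀) *
      ∏ ζ ∈ (nthRootsFinset p (1 : F)).erase 1, v.valuation F (x / ζ₀ - ζ) := by
    have h4 : x ^ p - 1 = (x / ζ₀) ^ p - 1 := by rw [div_pow, hζp, div_one]
    rw [h4, ← prod_sub_root hp hε, ← Finset.mul_prod_erase _ _ (one_mem_roots hp), map_mul,
      map_prod]
    congr 1
    have : x / ζ₀ - 1 = (x - ζ₀) / ζ₀ := by field_simp
    rw [this, map_div₀, hvζ, div_one]
  rw [h3] at hx
  have h5 : v.valuation F (x - ζ₀) * v.valuation F (p : F) ≤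
      v.valuation F (p : F) ^ 2 * v.valuation F (p : F) := by
    refine (mul_le_mul_right h2 _).trans ?_
    rw [← pow_succ]
    exact hx
  exact (mul_le_mul_iff_left₀ (zero_lt_iff.mpr hp0)).mp h5

theorem val_of_close (w : HeightOneSpectrum (𝓞 F)) {x y : F}
    (h : w.valuation F (x - y) < w.valuation F y) : w.valuation F x = w.valuation F y := by
  have := (w.valuation F).map_add_eq_of_lt_right h
  rwa [sub_add_cancel] at this

theorem val_one_of_close (w : HeightOneSpectrum (𝓞 F)) {x : F}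
    (h : w.valuation F (x - 1) < 1) : w.valuation F x = 1 := by
  have := val_of_close w (x := x) (y := 1) (by rwa [map_one])
  rwa [map_one] at this

theorem val_p_eq_one {v : HeightOneSpectrum (𝓞 F)} (hv : v ∉ abP p F) :
    v.valuation F (p : F) = 1 :=
  le_antisymm (Pool.Agent.Helper33.REC.val_le_one p v) (not_lt.mp hv)

/-- Divisibility by a power of `p`. -/
theorem dvd_of_val (hp : 0 < p) (z : F) (j : ℕ) (h1 : ∀ v ∈ abP p F,
    v.valuation F z ≤ v.valuation F (p : F) ^ j)
    (h2 : ∀ v ∉ abP p F, v.valuation F z ≤ 1) :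
    ∃ r : 𝓞 F, z = (p : F) ^ j * (r : F) := by
  have hp0 : (p : F) ≠ 0 := by exact_mod_cast hp.ne'
  obtain ⟨r, hr⟩ := HeightOneSpectrum.mem_integers_of_valuation_le_one (R := 𝓞 F) F
    (z / (p : F) ^ j) (by
      intro v
      have hvp : v.valuation F (p : F) ^ j ≠ 0 := pow_ne_zero _ (by
        rw [Ne, map_eq_zero]; exact hp0)
      rw [map_div₀, map_pow, div_le_one₀ (zero_lt_iff.mpr hvp)]
      by_cases hv : v ∈ abP p F
      · exact h1 v hv
      · rw [val_p_eq_one hv, one_pow]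
        exact h2 v hv)
  refine ⟨r, ?_⟩
  have : (r : F) = z / (p : F) ^ j := hr
  rw [this]
  field_simp

omit [NumberField F] in
theorem mem_span_iff (z : 𝓞 F) (j : ℕ) :
    z ∈ Ideal.span {(p : 𝓞 F) ^ j} ↔ ∃ r : 𝓞 F, (z : F) = (p : F) ^ j * (r : F) := by
  rw [Ideal.mem_span_singleton, dvd_def]
  refine exists_congr fun r => ?_
  constructor
  · intro h
    rw [h]
    simp
  · intro h
    apply RingOfIntegers.ext
    rw [h]
    simp

/-- The elements of `𝓞 F` which are units above `p` are units modulo a power of `p`. -/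
theorem isUnit_mk (z : 𝓞 F) (hp : 0 < p) (h : ∀ v ∈ abP p F, v.valuation F (z : F) = 1) :
    IsUnit (Ideal.Quotient.mk (Ideal.span {(p : 𝓞 F) ^ 3}) z) := by
  by_cases hI : Ideal.span {z} ⊔ Ideal.span {(p : 𝓞 F) ^ 3} = ⊤
  · have h1 : (1 : 𝓞 F) ∈ Ideal.span {z} ⊔ Ideal.span {(p : 𝓞 F) ^ 3} := by
      rw [hI]; trivial
    obtain ⟨a, ha, b, hb, hab⟩ := Submodule.mem_sup.mp h1
    obtain ⟨c, hc⟩ := Ideal.mem_span_singleton'.mp ha
    refine IsUnit.of_mul_eq_one (Ideal.Quotient.mk _ c) ?_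
    rw [← map_mul, ← map_one (Ideal.Quotient.mk (Ideal.span {(p : 𝓞 F) ^ 3})), ← hab,
      mul_comm z c, hc, map_add, Ideal.Quotient.eq_zero_iff_mem.mpr hb, add_zero]
  · exfalso
    obtain ⟨m, hm, hle⟩ := Ideal.exists_le_maximal _ hI
    have hpm : (p : 𝓞 F) ∈ m := by
      have : (p : 𝓞 F) ^ 3 ∈ m := hle (Ideal.mem_sup_right (Ideal.mem_span_singleton_self _))
      exact hm.isPrime.mem_of_pow_mem _ this
    have hzm : z ∈ m := hle (Ideal.mem_sup_left (Ideal.mem_span_singleton_self _))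
    have hm0 : m ≠ ⊥ := by
      intro h0
      rw [h0, Ideal.mem_bot] at hpm
      have : p = 0 := by exact_mod_cast hpm
      omega
    let v : HeightOneSpectrum (𝓞 F) := ⟨m, hm.isPrime, hm0⟩
    have hv : v ∈ abP p F := by
      have h2 := (v.valuation_lt_one_iff_mem (K := F) (p : 𝓞 F)).mpr hpm
      have h3 : algebraMap (𝓞 F) F (p : 𝓞 F) = (p : F) := map_natCast _ p
      show v.valuation F (p : F) < 1
      rw [← h3]
      exact h2
    have h4 := (v.valuation_lt_one_iff_mem (K := F) z).mpr hzm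
    exact absurd (h v hv) h4.ne

/-- Conversely. -/
theorem val_eq_one_of_isUnit (z : 𝓞 F)
    (h : IsUnit (Ideal.Quotient.mk (Ideal.span {(p : 𝓞 F) ^ 3}) z)) :
    ∀ v ∈ abP p F, v.valuation F (z : F) = 1 := by
  intro v hv
  obtain ⟨u, hu⟩ := h
  obtain ⟨a, ha⟩ := Ideal.Quotient.mk_surjective (u⁻¹ : (𝓞 F ⧸ Ideal.span {(p : 𝓞 F) ^ 3})ˣ).val
  have h1 : Ideal.Quotient.mk (Ideal.span {(p : 𝓞 F) ^ 3}) (z * a) =
      Ideal.Quotient.mk (Ideal.span {(p : 𝓞 F) ^ 3}) 1 := by
    rw [map_mul, ha, ← hu, map_one]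
    exact u.mul_inv
  rw [Ideal.Quotient.eq, mem_span_iff] at h1
  obtain ⟨r, hr⟩ := h1
  have h2 : v.valuation F ((z : F) * (a : F) - 1) < 1 := by
    have h3 : (z : F) * (a : F) - 1 = ((z * a - 1 : 𝓞 F) : F) := by simp
    rw [h3, hr, map_mul, map_pow]
    calc v.valuation F (p : F) ^ 3 * v.valuation F (r : F)
        ≤ v.valuation F (p : F) ^ 3 * 1 := mul_le_mul_right (v.valuation_le_one r) _
      _ < 1 := by
        rw [mul_one]
        exact pow_lt_one₀ zero_le hv (by norm_num)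
  have h4 := val_one_of_close v h2
  rw [map_mul] at h4
  have h5 : v.valuation F (z : F) ≤ 1 := v.valuation_le_one z
  have h6 : v.valuation F (a : F) ≤ 1 := v.valuation_le_one a
  refine le_antisymm h5 ?_
  calc (1 : WithZero (Multiplicative ℤ)) = v.valuation F (z : F) * v.valuation F (a : F) := h4.symm
    _ ≤ v.valuation F (z : F) * 1 := mul_le_mul_right h6 _
    _ = v.valuation F (z : F) := mul_one _

/-- Integral representatives. -/
theorem exists_rep (hp : 0 < p) (hfin : (abP p F).Finite) (hne : (abP p F).Nonempty) (x : Fˣ)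
    (hx : ∀ v ∈ abP p F, (p : ℤ) ∣ ordv v (x : F)) :
    ∃ (y : Fˣ) (z : 𝓞 F), (x : F) * (y : F) ^ p = (z : F) ∧
      ∀ v ∈ abP p F, v.valuation F (z : F) = 1 := by
  classical
  have hxv : ∀ v : HeightOneSpectrum (𝓞 F), v.valuation F (x : F) =
      WithZero.exp (-ordv v (x : F)) := by
    intro v
    unfold ordv
    rw [neg_neg, WithZero.exp_log ((Valuation.ne_zero_iff _).mpr x.ne_zero)]
  choose π hπ using fun v : HeightOneSpectrum (𝓞 F) => v.valuation_exists_uniformizer F
  have hp1 : (1 : ℤ) ≤ p := by exact_mod_cast hp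
  set g : HeightOneSpectrum (𝓞 F) → F := fun v =>
    if v ∈ abP p F then π v ^ (-(ordv v (x : F) / p)) else 0 with hg
  set S : Finset (HeightOneSpectrum (𝓞 F)) := hfin.toFinset ∪
    (Pool.Agent.Helper33.REC.finite_ordv x).toFinset with hS
  set n : ℕ := ∑ v ∈ S, (ordv v (x : F)).natAbs + 1 with hn
  have hn' : ∀ v ∈ S, ((ordv v (x : F)).natAbs : ℤ) < n := by
    intro v hv
    have h1 : (ordv v (x : F)).natAbs ≤ ∑ v ∈ S, (ordv v (x : F)).natAbs :=
      Finset.single_le_sum (f := fun v => (ordv v (x : F)).natAbs) (fun _ _ => Nat.zero_le _) hv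
    exact_mod_cast Nat.lt_succ_of_le h1
  obtain ⟨y, hy1, hy2⟩ := Pool.Agent.Helper14.PP.strong S g n
  have hyP : ∀ v ∈ abP p F, v.valuation F y = WithZero.exp (ordv v (x : F) / p) := by
    intro v hv
    have hvS : v ∈ S := Finset.mem_union_left _ (hfin.mem_toFinset.mpr hv)
    have h1 := hy1 v hvS
    have h2 : v.valuation F (g v) = WithZero.exp (ordv v (x : F) / p) := by
      simp only [hg, if_pos hv]
      rw [map_zpow₀, hπ v, ← WithZero.exp_zsmul]
      congr 1
      simp
    rw [← h2]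
    refine val_of_close v (h1.trans_lt ?_)
    rw [h2, WithZero.exp_lt_exp]
    obtain ⟨k, hk⟩ := hx v hv
    have h3 := hn' v hvS
    have h4 : ordv v (x : F) / p = k := by
      rw [hk]
      exact Int.mul_ediv_cancel_left _ (by omega)
    rw [h4]
    rw [hk] at h3
    have h5 : -(((p : ℤ) * k).natAbs : ℤ) ≤ k := by
      rw [Int.natAbs_mul]
      push_cast
      have h6 : |k| ≤ |(p : ℤ)| * |k| := by
        have : (1 : ℤ) ≤ |(p : ℤ)| := by rw [Nat.abs_cast]; exact hp1
        nlinarith [abs_nonneg k]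
      have h7 := neg_abs_le k
      linarith
    omega
  have hy0 : y ≠ 0 := by
    intro h0
    obtain ⟨v, hv⟩ := hne
    have := hyP v hv
    rw [h0, map_zero] at this
    exact WithZero.exp_ne_zero this.symm
  have hP1 : ∀ v ∈ abP p F, v.valuation F ((x : F) * y ^ p) = 1 := by
    intro v hv
    rw [map_mul, map_pow, hyP v hv, hxv v, ← WithZero.exp_nsmul, ← WithZero.exp_add,
      ← WithZero.exp_zero]
    congr 1
    obtain ⟨k, hk⟩ := hx v hv
    have h4 : ordv v (x : F) / p = k := by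
      rw [hk]
      exact Int.mul_ediv_cancel_left _ (by omega)
    rw [h4, hk]
    simp
  obtain ⟨z, hz⟩ := HeightOneSpectrum.mem_integers_of_valuation_le_one (R := 𝓞 F) F
    ((x : F) * y ^ p) (by
      intro v
      by_cases hv : v ∈ abP p F
      · exact (hP1 v hv).le
      · by_cases hvS : v ∈ S
        · have h1 := hy1 v hvS
          simp only [hg, if_neg hv, sub_zero] at h1
          rw [map_mul, map_pow, hxv v]
          calc WithZero.exp (-ordv v (x : F)) * v.valuation F y ^ p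
              ≤ WithZero.exp (-ordv v (x : F)) * WithZero.exp (-(n : ℤ)) ^ p :=
                mul_le_mul_right (pow_le_pow_left₀ zero_le h1 _) _
            _ = WithZero.exp (-ordv v (x : F) + p * (-(n : ℤ))) := by
                rw [← WithZero.exp_nsmul, ← WithZero.exp_add]
                simp
            _ ≤ 1 := by
                rw [← WithZero.exp_zero, WithZero.exp_le_exp]
                have h3 := hn' v hvS
                have h4 : (n : ℤ) ≤ p * n := by nlinarith
                have h5 : p * (-(n : ℤ)) = -(p * n) := by ring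
                rw [h5]
                omega
        · have h1 := hy2 v hvS
          have h2 : ordv v (x : F) = 0 := by
            by_contra h3
            exact hvS (Finset.mem_union_right _
              ((Pool.Agent.Helper33.REC.finite_ordv x).mem_toFinset.mpr h3))
          rw [map_mul, map_pow, hxv v, h2, neg_zero, WithZero.exp_zero, one_mul]
          exact pow_le_one₀ zero_le h1)
  refine ⟨Units.mk0 y hy0, z, hz.symm, ?_⟩
  intro v hv
  have : (z : F) = (x : F) * y ^ p := hz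
  rw [this]
  exact hP1 v hv

end val

section count

/-- Counting by fibres. -/
theorem card_le_fib {A B C : Type} [Finite B] [Finite C] (f : A → B)
    (h : ∀ a₀ : A, ∃ r : A → C, ∀ a a', f a = f a₀ → f a' = f a₀ → r a = r a' → a = a') :
    Nat.card A ≤ Nat.card B * Nat.card C := by
  classical
  rw [← Nat.card_prod]
  rcases isEmpty_or_nonempty A with hA | hA
  · rw [Nat.card_of_isEmpty]
    exact Nat.zero_le _
  choose r hr using h
  refine Nat.card_le_card_of_injective
    (fun a => ((f a, r (Function.invFun f (f a)) a) : B × C)) ?_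
  intro a a' haa
  have h1 : f a = f a' := congrArg Prod.fst haa
  have h2 : r (Function.invFun f (f a)) a = r (Function.invFun f (f a')) a' :=
    congrArg Prod.snd haa
  rw [← h1] at h2
  have h3 : f (Function.invFun f (f a)) = f a := Function.invFun_eq ⟨a, rfl⟩
  exact hr (Function.invFun f (f a)) a a' h3.symm (h1.symm.trans h3.symm) h2

theorem card_quot_range {G : Type} [CommGroup G] [Finite G] (n : ℕ) :
    Nat.card (G ⧸ (powMonoidHom n : G →* G).range) = Nat.card (powMonoidHom n : G →* G).ker := by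
  set f := (powMonoidHom n : G →* G) with hf
  have h1 := Subgroup.card_mul_index f.range
  have h2 := Subgroup.card_mul_index f.ker
  rw [Subgroup.index_ker] at h2
  have h3 : Nat.card f.range * f.range.index = Nat.card f.range * Nat.card f.ker := by
    rw [h1, mul_comm, h2]
  have h4 := Nat.eq_of_mul_eq_mul_left Nat.card_pos h3
  rw [← h4]
  rfl

variable {F : Type} [Field F] [NumberField F] {p : ℕ}

theorem finite_abP (hp : 0 < p) : (abP p F).Finite := by
  have hp0 : (p : F) ≠ 0 := by exact_mod_cast hp.ne'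
  refine (Pool.Agent.Helper33.REC.finite_ordv (Units.mk0 (p : F) hp0)).subset ?_
  intro v hv h0
  have h1 : v.valuation F (p : F) = WithZero.exp (-ordv v (p : F)) := by
    unfold ordv
    rw [neg_neg, WithZero.exp_log ((Valuation.ne_zero_iff _).mpr hp0)]
  rw [Units.val_mk0] at h0
  rw [h0, neg_zero, WithZero.exp_zero] at h1
  exact absurd h1 (ne_of_lt hv)

theorem card_quot_p (p : ℕ) :
    Nat.card (𝓞 F ⧸ Ideal.span {(p : 𝓞 F)}) = p ^ finrank ℚ F := by
  have h1 : Ideal.absNorm (Ideal.span {(p : 𝓞 F)}) = p ^ finrank ℚ F := by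
    rw [Ideal.absNorm_span_singleton]
    have h2 : (p : 𝓞 F) = algebraMap ℤ (𝓞 F) (p : ℤ) := by simp
    rw [h2, Algebra.norm_algebraMap, RingOfIntegers.rank]
    simp [Int.natAbs_pow]
  rw [← h1, Ideal.absNorm_apply, Submodule.cardQuot_apply]

theorem finite_quot (hp : 0 < p) (j : ℕ) : Finite (𝓞 F ⧸ Ideal.span {(p : 𝓞 F) ^ j}) := by
  apply Ideal.finiteQuotientOfFreeOfNeBot
  intro h
  rw [Ideal.span_singleton_eq_bot] at h
  have h1 : (p : 𝓞 F) = 0 := by
    by_contra h2
    exact pow_ne_zero j h2 h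
  have : p = 0 := by exact_mod_cast h1
  omega

theorem card_ker_le (hp : 0 < p) {ε : F} (hε : IsPrimitiveRoot ε p) :
    Nat.card (powMonoidHom p : (𝓞 F ⧸ Ideal.span {(p : 𝓞 F) ^ 3})ˣ →* _).ker ≤
      p ^ (abP p F).ncard * p ^ finrank ℚ F := by
  classical
  have hfin := finite_abP (F := F) hp
  have : Finite (abP p F) := hfin.to_subtype
  have : Finite (𝓞 F ⧸ Ideal.span {(p : 𝓞 F)}) := by
    have := finite_quot (F := F) hp 1
    rwa [pow_one] at this
  have hB : Nat.card (abP p F → (nthRootsFinset p (1 : F))) = p ^ (abP p F).ncard := by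
    rw [Nat.card_fun, Nat.card_eq_fintype_card (α := nthRootsFinset p (1 : F)),
      Fintype.card_coe, hε.card_nthRootsFinset]
    rfl
  rw [← hB, ← card_quot_p (F := F) p]
  set Q := 𝓞 F ⧸ Ideal.span {(p : 𝓞 F) ^ 3} with hQ
  set K := (powMonoidHom p : Qˣ →* Qˣ).ker with hK
  have hlift : ∀ g : K, ∃ x : 𝓞 F, Ideal.Quotient.mk (Ideal.span {(p : 𝓞 F) ^ 3}) x =
      ((g : Qˣ) : Q) := fun g => Ideal.Quotient.mk_surjective _
  choose x hx using hlift
  have hroot : ∀ (g : K) (v : abP p F), ∃ ζ : nthRootsFinset p (1 : F),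
      v.1.valuation F ((x g : F) - (ζ : F)) ≤ v.1.valuation F (p : F) ^ 2 := by
    intro g v
    have h1 : Ideal.Quotient.mk (Ideal.span {(p : 𝓞 F) ^ 3}) (x g ^ p) =
        Ideal.Quotient.mk (Ideal.span {(p : 𝓞 F) ^ 3}) 1 := by
      rw [map_pow, hx, map_one]
      have h2 : (g : Qˣ) ^ p = 1 := g.2
      rw [← Units.val_pow_eq_pow_val, h2]
      rfl
    rw [Ideal.Quotient.eq, mem_span_iff] at h1
    obtain ⟨r, hr⟩ := h1
    obtain ⟨ζ, hζ, hζ2⟩ := root_close hp hε v.1 (x g : F) (by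
      have h3 : (x g : F) ^ p - 1 = ((x g ^ p - 1 : 𝓞 F) : F) := by simp
      rw [h3, hr, map_mul, map_pow]
      calc v.1.valuation F (p : F) ^ 3 * v.1.valuation F (r : F)
          ≤ v.1.valuation F (p : F) ^ 3 * 1 := mul_le_mul_right (v.1.valuation_le_one r) _
        _ = _ := mul_one _)
    exact ⟨⟨ζ, hζ⟩, hζ2⟩
  choose ι hι using hroot
  refine card_le_fib ι ?_
  intro g₀
  have hr : ∀ g : K, ι g = ι g₀ → ∃ r : 𝓞 F, ((x g : F) - (x g₀ : F)) = (p : F) ^ 2 * (r : F) := by
    intro g hg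
    refine dvd_of_val hp _ 2 ?_ ?_
    · intro v hv
      have h1 := hι g ⟨v, hv⟩
      have h2 := hι g₀ ⟨v, hv⟩
      rw [hg] at h1
      have h3 : (x g : F) - (x g₀ : F) = ((x g : F) - (ι g₀ ⟨v, hv⟩ : F)) -
          ((x g₀ : F) - (ι g₀ ⟨v, hv⟩ : F)) := by ring
      rw [h3]
      exact (Valuation.map_sub _ _ _).trans (max_le h1 h2)
    · intro v _
      have h3 : (x g : F) - (x g₀ : F) = ((x g - x g₀ : 𝓞 F) : F) := by simp
      rw [h3]
      exact v.valuation_le_one _
  choose! r hr using hr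
  refine ⟨fun g => Ideal.Quotient.mk (Ideal.span {(p : 𝓞 F)}) (r g), ?_⟩
  intro g g' hg hg' heq
  have h1 := hr g hg
  have h2 := hr g' hg'
  rw [Ideal.Quotient.eq, Ideal.mem_span_singleton, dvd_def] at heq
  obtain ⟨c, hc⟩ := heq
  have h3 : Ideal.Quotient.mk (Ideal.span {(p : 𝓞 F) ^ 3}) (x g) =
      Ideal.Quotient.mk (Ideal.span {(p : 𝓞 F) ^ 3}) (x g') := by
    rw [Ideal.Quotient.eq, mem_span_iff]
    refine ⟨c, ?_⟩
    have h4 : ((x g - x g' : 𝓞 F) : F) = ((x g : F) - (x g₀ : F)) - ((x g' : F) - (x g₀ : F)) := by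
      simp
    have h5 : (r g : F) - (r g' : F) = (p : F) * (c : F) := by
      have := congrArg (algebraMap (𝓞 F) F) hc
      simpa using this
    rw [h4, h1, h2, ← mul_sub, h5]
    ring
  rw [hx, hx] at h3
  exact Subtype.ext (Units.ext h3)

theorem count {ε : F} [hp : Fact p.Prime] (hε : IsPrimitiveRoot ε p) (X : Finset Fˣ)
    (hX : ∀ x ∈ X, ∀ y ∈ X, x ≠ y → ¬ LocS p (abP p F) (x / y)) :
    X.card ≤ p ^ (2 * (abP p F).ncard + finrank ℚ F) := by
  classical
  have hp0 : 0 < p := hp.out.pos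
  rcases Set.eq_empty_or_nonempty (abP p F) with he | hne
  · have h1 : X.card ≤ 1 := by
      rw [Finset.card_le_one]
      intro x hx y hy
      by_contra hxy
      refine hX x hx y hy hxy ⟨1, ?_⟩
      rw [he]
      intro w hw
      exact absurd hw (Set.notMem_empty w)
    exact h1.trans (Nat.one_le_pow _ _ hp0)
  have hfin := finite_abP (F := F) hp0
  have : Finite (abP p F) := hfin.to_subtype
  have hQf := finite_quot (F := F) hp0 3
  have h1 : Nat.card X ≤ Nat.card (abP p F → ZMod p) *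
      Nat.card ((𝓞 F ⧸ Ideal.span {(p : 𝓞 F) ^ 3})ˣ ⧸
        (powMonoidHom p : (𝓞 F ⧸ Ideal.span {(p : 𝓞 F) ^ 3})ˣ →* _).range) := by
    refine card_le_fib (fun (a : X) (v : abP p F) => ((ordv v.1 ((a : Fˣ) : F) : ℤ) : ZMod p)) ?_
    intro a₀
    have key : ∀ a : X, (fun v : abP p F => ((ordv v.1 ((a : Fˣ) : F) : ℤ) : ZMod p)) =
        (fun v : abP p F => ((ordv v.1 ((a₀ : Fˣ) : F) : ℤ) : ZMod p)) →
        ∃ (y : Fˣ) (z : 𝓞 F) (u : (𝓞 F ⧸ Ideal.span {(p : 𝓞 F) ^ 3})ˣ),
          (((a : Fˣ) / (a₀ : Fˣ) : Fˣ) : F) * (y : F) ^ p = (z : F) ∧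
          (∀ v ∈ abP p F, v.valuation F (z : F) = 1) ∧
          Ideal.Quotient.mk (Ideal.span {(p : 𝓞 F) ^ 3}) z = (u : _) := by
      intro a ha
      obtain ⟨y, z, hyz, hz⟩ := exists_rep hp0 hfin hne ((a : Fˣ) / (a₀ : Fˣ)) (by
        intro v hv
        have h2 := congrFun ha ⟨v, hv⟩
        simp only at h2
        have h3 := Pool.Agent.Helper33.REC.ordv_mul' v ((a : Fˣ) / (a₀ : Fˣ)) (a₀ : Fˣ)
        rw [div_mul_cancel] at h3
        have h4 : ordv v ((((a : Fˣ) / (a₀ : Fˣ) : Fˣ)) : F) =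
            ordv v ((a : Fˣ) : F) - ordv v ((a₀ : Fˣ) : F) := by linarith
        rw [h4]
        exact (ZMod.intCast_eq_intCast_iff_dvd_sub _ _ _).mp h2.symm)
      obtain ⟨u, hu⟩ := isUnit_mk z hp0 hz
      exact ⟨y, z, u, hyz, hz, hu.symm⟩
    choose! y z u h1 h2 h3 using key
    refine ⟨fun a => QuotientGroup.mk (u a), ?_⟩
    intro a a' ha ha' heq
    by_contra hne'
    have hne2 : (a' : Fˣ) ≠ (a : Fˣ) := fun h => hne' (Subtype.ext h.symm)
    refine hX _ a'.2 _ a.2 hne2 ?_
    obtain ⟨t, ht⟩ := QuotientGroup.eq.mp heq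
    obtain ⟨T, hT⟩ := Ideal.Quotient.mk_surjective (t : 𝓞 F ⧸ Ideal.span {(p : 𝓞 F) ^ 3})
    have hTv := val_eq_one_of_isUnit (F := F) T (by rw [hT]; exact t.isUnit)
    have hT0 : (T : F) ≠ 0 := by
      intro h0
      obtain ⟨v, hv⟩ := hne
      have := hTv v hv
      rw [h0, map_zero] at this
      exact zero_ne_one this
    have hmod : Ideal.Quotient.mk (Ideal.span {(p : 𝓞 F) ^ 3}) (z a') =
        Ideal.Quotient.mk (Ideal.span {(p : 𝓞 F) ^ 3}) (z a * T ^ p) := by
      rw [map_mul, map_pow, h3 a ha, h3 a' ha', hT]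
      have h4 : u a' = u a * t ^ p := by
        have h5 : t ^ p = (u a)⁻¹ * u a' := ht
        rw [h5]
        group
      rw [h4]
      push_cast
      rfl
    rw [Ideal.Quotient.eq, mem_span_iff] at hmod
    obtain ⟨r, hr⟩ := hmod
    refine ⟨y a' / (y a * Units.mk0 (T : F) hT0), ?_⟩
    intro v hv
    have hza := h2 a ha v hv
    have hza0 : (z a : F) ≠ 0 := by
      intro h0
      rw [h0, map_zero] at hza
      exact zero_ne_one hza
    have e1 := h1 a ha
    have e2 := h1 a' ha'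
    have h6 : (((a' : Fˣ) / (a : Fˣ) : Fˣ) : F) *
        ((y a' / (y a * Units.mk0 (T : F) hT0) : Fˣ) : F) ^ p - 1 =
        ((z a' - z a * T ^ p : 𝓞 F) : F) / ((z a : F) * (T : F) ^ p) := by
      have h7 : ((z a' - z a * T ^ p : 𝓞 F) : F) = (z a' : F) - (z a : F) * (T : F) ^ p := by
        simp
      rw [h7, sub_div, div_self (mul_ne_zero hza0 (pow_ne_zero _ hT0))]
      congr 1
      rw [← e1, ← e2]
      simp only [Units.val_div_eq_div_val, Units.val_mul, Units.val_mk0, div_pow, mul_pow]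
      have n1 := (a : Fˣ).ne_zero
      have n2 := (a₀ : Fˣ).ne_zero
      have n3 := (y a).ne_zero
      field_simp
    have h8 : v.valuation F ((((a' : Fˣ) / (a : Fˣ) : Fˣ) : F) *
        ((y a' / (y a * Units.mk0 (T : F) hT0) : Fˣ) : F) ^ p - 1) ≤
        v.valuation F (p : F) ^ 3 := by
      rw [h6, hr, map_div₀, map_mul, map_mul, hza, map_pow, map_pow, hTv v hv, one_pow,
        one_mul, div_one]
      calc v.valuation F (p : F) ^ 3 * v.valuation F (r : F)
          ≤ v.valuation F (p : F) ^ 3 * 1 := mul_le_mul_right (v.valuation_le_one r) _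
        _ = _ := mul_one _
    exact ⟨h8.trans_lt (pow_lt_one₀ zero_le hv (by norm_num)), h8⟩
  rw [card_quot_range] at h1
  rw [Nat.card_fun, Nat.card_zmod] at h1
  have h2 : Nat.card X = X.card := by simp
  rw [← h2]
  calc Nat.card X ≤ _ := h1
    _ ≤ p ^ (abP p F).ncard * (p ^ (abP p F).ncard * p ^ finrank ℚ F) :=
      Nat.mul_le_mul_left _ (card_ker_le hp0 hε)
    _ = p ^ (2 * (abP p F).ncard + finrank ℚ F) := by ring

end count

theorem x_lix : X_LIX := by
  intro p hp F _ _ ε hε X hX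
  exact count hε X hX

end Pool.Agent.Helper33.PB
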